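import Pool.Agent.Y330.PR.A5

set_option autoImplicit false

open Set Filter Topology

namespace Pool.Agent.Results.MP_67b65f_an.DarkPocket

open Pool.Agent.H800R2

/-- In every dimension `n ≥ 2` there are a bounded domain `Ω` of `ℝⁿ` with smooth boundary and
nonempty open subsets `U`, `V` of `Ω` such that for every point `P` of `U` all the fronts
`front Ω P t` are disjoint from `V`; so the fronts from `P` do not become dense as `t → ∞`. -/
theorem result : ∀ n : ℕ, 2 ≤ n → ∃ Ω : Set (Euc n), IsSmoothDomain Ω ∧ ∃ U V : Set (Euc n),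
    IsOpen U ∧ U.Nonempty ∧ U ⊆ Ω ∧ IsOpen V ∧ V.Nonempty ∧ V ⊆ Ω ∧
      ∀ P ∈ U, (∀ t : ℝ, Disjoint (front Ω P t) V) ∧ ¬ FrontsBecomeDense Ω P :=
  Pool.Agent.Y330.PR.main

end Pool.Agent.Results.MP_67b65f_an.DarkPocket
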